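import Pool.Agent.H66.ER2.Targets
import Pool.Agent.H66.ER2.Lib

/-!
# MP_816b90_co: the outer path through the corner `a2`
-/

set_option autoImplicit false

namespace Pool.Agent.H1.ER2

open Pool.Agent.H48.ER Pool.Agent.H52.ER2 Pool.Agent.H66.ER2

variable {V : Type} {G : SimpleGraph V}

/-- an outer path from a chordless path -/
theorem ou_of_ip {v x y : V} {n : ℕ} {R : Set V} (h : IP G n x y R) (hn : 2 ≤ n)
    (hx : G.Adj v x) (hy : G.Adj v y) (hi : ∀ w ∈ R, w ≠ x → w ≠ y → w ≠ v ∧ ¬ G.Adj v w) :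
    ∃ z, Ou G v n z ∧ z 0 = x ∧ z n = y ∧ R = seg z 0 n := by
  obtain ⟨g, hg, g0, gn, hR⟩ := Pool.Agent.H66.ER2.IP.pf h
  refine ⟨g, ⟨hg, hn, by rw [g0]; exact hx, by rw [gn]; exact hy, ?_⟩, g0, gn, hR⟩
  intro i h1 h2
  refine hi (g i) (by rw [hR]; exact mem_seg (Nat.zero_le _) h2.le) ?_ ?_
  · intro e
    have := hg.inj _ _ h2.le (Nat.zero_le _) (e.trans g0.symm)
    omega
  · intro e
    have := hg.inj _ _ h2.le le_rfl (e.trans gn.symm)
    omega

section

variable {v : V} {k : ℕ} {z : ℕ → V} {l r n m : ℕ} {a1 x b1 y a2 b2 a3 b3 : V}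
  {L R P Q : Set V}

theorem mem_wz {i : ℕ} (h0 : 0 < i) (hk : i < k) : z i ∈ Wz k z := ⟨i, h0, hk, rfl⟩

theorem mem_vS_L {w : V} (h : w ∈ L) : w ∈ vS L R P Q := Or.inl (Or.inl (Or.inl h))

theorem mem_vS_P {w : V} (h : w ∈ P) : w ∈ vS L R P Q := Or.inl (Or.inr h)

theorem mem_vS_Q {w : V} (h : w ∈ Q) : w ∈ vS L R P Q := Or.inr h

theorem mem_vS_PQ {w : V} (h : w ∈ P ∪ Q) : w ∈ vS L R P Q := by
  rcases h with h | h
  · exact mem_vS_P h
  · exact mem_vS_Q h

/-- a neighbour of `v` in the split prism different from `x` and `y` sees no interior vertex of the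
outer path -/
theorem no_see (hg : GCx G v k z l r n m a1 x b1 y a2 b2 a3 b3 L R P Q)
    (ho : GOn G v k z x y L R P Q) {w : V} (hw : w ∈ vS L R P Q) (hvw : G.Adj v w)
    (hx : w ≠ x) (hy : w ≠ y) {i : ℕ} (h0 : 0 < i) (hk : i < k) : ¬ G.Adj w (z i) :=
  hg.t0 w hw hvw (fun h => hx (ho.1 w hw h)) (fun h => hy (ho.2 w hw h)) _ (mem_wz h0 hk)

theorem ne_x (hg : GCx G v k z l r n m a1 x b1 y a2 b2 a3 b3 L R P Q) {w : V}
    (hw : w ∈ P ∪ Q) : w ≠ x := by
  rintro rfl
  rcases hw with h | h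
  · exact Set.disjoint_left.1 hg.sp.dLP hg.sp.x_mem h
  · exact Set.disjoint_left.1 hg.sp.dLQ hg.sp.x_mem h

theorem ne_y (hg : GCx G v k z l r n m a1 x b1 y a2 b2 a3 b3 L R P Q) {w : V}
    (hw : w ∈ P ∪ Q) : w ≠ y := by
  rintro rfl
  rcases hw with h | h
  · exact Set.disjoint_left.1 hg.sp.dRP hg.sp.y_mem h
  · exact Set.disjoint_left.1 hg.sp.dRQ hg.sp.y_mem h

end

theorem pf_GOP (hOUE : T_OUE) (hGMJ : T_GMJ) : T_GOP := by
  intro V G v k z l r n m a1 x b1 y a2 b2 a3 b3 L R P Q i hg ho hl h0 hik hsee hnot hzi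
  have sp := hg.sp
  have a2P : a2 ∈ P ∪ Q := Or.inl sp.a2_mem
  have a3Q : a3 ∈ P ∪ Q := Or.inr sp.a3_mem
  have hz2 : G.Adj (z i) a2 := (hzi a2 a2P).2 rfl
  have a1x : a1 ≠ x := sp.ipL.ne hl
  have nv2 : ¬ G.Adj v a2 := fun h =>
    no_see hg ho (mem_vS_PQ a2P) h (ne_x hg a2P) (ne_y hg a2P) h0 hik hz2.symm
  have hTwo := (hGMJ V G v k z l r n m a1 x b1 y a2 b2 a3 b3 L R P Q hg).1
  have h13 : G.Adj v a1 ∧ G.Adj v a3 := by
    rcases hTwo with h | h | h
    · exact absurd h.2 nv2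
    · exact h
    · exact absurd h.1 nv2
  obtain ⟨va1, va3⟩ := h13
  have vx : G.Adj v x := hg.hx.1
  have hou := hg.so.toOu
  have hpf := hou.pf
  -- the vertices `z 1, .., z i`
  have hseg : IP G (i - 1) (z 1) (z i) (seg z 1 i) := hpf.seg h0 hik.le
  have hzv : ∀ j, 1 ≤ j → j ≤ i → z j ≠ v ∧ ¬ G.Adj v (z j) := fun j h1 h2 =>
    hou.int j (by omega) (by omega)
  -- the vertex `x` in front
  have hxn : x ∉ seg z 1 i := by
    rintro ⟨j, h1, h2, e⟩
    exact (hzv j h1 h2).2 (by rw [e]; exact vx)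
  have hxa : ∀ w ∈ seg z 1 i, G.Adj x w ↔ w = z 1 := by
    rintro _ ⟨j, h1, h2, rfl⟩
    constructor
    · intro h
      by_contra e
      have h3 : 1 < j := by
        rcases Nat.lt_or_ge 1 j with h4 | h4
        · exact h4
        · exact absurd (by rw [show j = 1 by omega]) e
      exact hg.hx.2.2 j h3 (by omega) h
    · intro e
      rw [e]
      exact hg.hx.2.1
  have h1 := hseg.cons hxn hxa
  -- the vertex `a2`
  have h2n : a2 ∉ insert x (seg z 1 i) := by
    rintro (e | ⟨j, h3, h4, e⟩)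
    · exact ne_x hg a2P e
    · exact hnot j (by omega) h4 (by rw [e]; exact a2P)
  have h2a : ∀ w ∈ insert x (seg z 1 i), G.Adj a2 w ↔ w = z i := by
    rintro w (rfl | ⟨j, h3, h4, rfl⟩)
    · constructor
      · intro h
        exact absurd ((sp.eLP _ sp.x_mem _ sp.a2_mem).1 h.symm).1.symm a1x
      · rintro rfl
        exact absurd vx (hzv i h0 le_rfl).2
    · constructor
      · intro h
        by_contra e
        have h5 : j < i := by
          rcases Nat.lt_or_ge j i with h6 | h6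
          · exact h6
          · exact absurd (by rw [show j = i by omega]) e
        exact hsee j (by omega) h5 a2 a2P h.symm
      · intro e
        rw [e]
        exact hz2.symm
  have h2 := h1.snoc h2n h2a
  -- the vertex `a3`
  have n23 : a3 ≠ a2 := fun e =>
    Set.disjoint_left.1 sp.dPQ sp.a2_mem (e ▸ sp.a3_mem)
  have h3n : a3 ∉ insert a2 (insert x (seg z 1 i)) := by
    rintro (e | e | ⟨j, h3, h4, e⟩)
    · exact n23 e
    · exact ne_x hg a3Q e
    · exact hnot j (by omega) h4 (by rw [e]; exact a3Q)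
  have h3a : ∀ w ∈ insert a2 (insert x (seg z 1 i)), G.Adj a3 w ↔ w = a2 := by
    rintro w (rfl | rfl | ⟨j, h3, h4, rfl⟩)
    · constructor
      · intro _; rfl
      · intro _
        exact ((sp.ePQ _ sp.a2_mem _ sp.a3_mem).2 (Or.inl ⟨rfl, rfl⟩)).symm
    · constructor
      · intro h
        exact absurd ((sp.eLQ _ sp.x_mem _ sp.a3_mem).1 h.symm).1.symm a1x
      · intro e
        exact absurd e.symm (ne_x hg a2P)
    · constructor
      · intro h
        rcases Nat.lt_or_ge j i with h6 | h6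
        · exact absurd h.symm (hsee j (by omega) h6 a3 a3Q)
        · rw [show j = i by omega] at h
          exact absurd ((hzi a3 a3Q).1 h.symm) n23
      · intro e
        exact absurd (e ▸ a2P) (hnot j (by omega) h4)
  have h3 := h2.snoc h3n h3a
  have en : i - 1 + 1 + 1 + 1 = i + 2 := by omega
  rw [en] at h3
  obtain ⟨z', hz', _, _, _⟩ := ou_of_ip h3 (by omega) vx va3 (by
    rintro w (rfl | rfl | rfl | ⟨j, h5, h6, rfl⟩) e1 e2
    · exact absurd rfl e2
    · exact ⟨fun e => hg.nv (e ▸ mem_vS_PQ a2P), nv2⟩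
    · exact absurd rfl e1
    · exact hzv j h5 h6)
  refine ⟨hg.so.mn _ _ hz', ?_, nv2, va1, va3⟩
  have := (hOUE V G v (i + 2) z' hg.cls.noh hg.f1 hz').1
  rw [Nat.even_add] at this
  exact this.2 (by decide)

end Pool.Agent.H1.ER2
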