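import Pool.Agent.H1.ER2.GOP

/-!
# MP_816b90_co: the a-side of a split prism
-/

set_option autoImplicit false

namespace Pool.Agent.H1.ER2

open Pool.Agent.H48.ER Pool.Agent.H52.ER2 Pool.Agent.H66.ER2

theorem pf_GSD (hASL : T_ASL) (hGMJ : T_GMJ) (hGFL : T_GFL) (hGDP : T_GDP) (hGOP : T_GOP) :
    T_GSD := by
  intro V G v k z l r n m a1 x b1 y a2 b2 a3 b3 L R P Q hg ho hl
  obtain ⟨i, d, D, h0, hik, hsee, hnot, hA, hvD, _, _⟩ :=
    hGDP V G v k z l r n m a1 x b1 y a2 b2 a3 b3 L R P Q hg ho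
  obtain ⟨ta, tb⟩ := hGMJ V G v k z l r n m a1 x b1 y a2 b2 a3 b3 L R P Q hg
  have hV : VCx G v a1 (z i) a2 b2 a3 b3 D P Q := by
    refine ⟨hg.nco, hvD, fun h => hg.nv (mem_vS_PQ h), (hg.so.toOu.int i h0 hik).2, ta, ?_, ?_⟩
    · rcases tb with h | h | h
      · exact Or.inl h.2
      · exact Or.inr h.2
      · exact Or.inl h.1
    · rintro w hw hvw hzw
      rcases hw with rfl | hw
      · refine no_see hg ho (mem_vS_L hg.sp.a1_mem) hvw (hg.sp.ipL.ne hl) ?_ h0 hik hzw.symm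
        intro e
        exact Set.disjoint_left.1 hg.sp.dLR hg.sp.a1_mem (e ▸ hg.sp.y_mem)
      · exact no_see hg ho (mem_vS_PQ hw) hvw (ne_x hg hw) (ne_y hg hw) h0 hik hzw.symm
  rcases hASL V G d n m a1 (z i) a2 b2 a3 b3 v D P Q hg.cls.noh hg.cls.nop hA hV with h | h
  · obtain ⟨q1, q2, q3, q4, q5⟩ := hGOP V G v k z l r n m a1 x b1 y a2 b2 a3 b3 L R P Q i hg ho hl
      h0 hik hsee hnot h
    exact ⟨i, h0, hik, q1, q2, hsee, Or.inl ⟨h, q3, q4, q5⟩⟩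
  · obtain ⟨_, hs, hs'⟩ := hGFL V G v k z l r n m a1 x b1 y a2 b2 a3 b3 L R P Q hg
    obtain ⟨q1, q2, q3, q4, q5⟩ := hGOP V G v k z l r m n a1 x b1 y a3 b3 a2 b2 L R Q P i hs
      (hs' ho).2 hl h0 hik (by rw [Set.union_comm Q P]; exact hsee)
      (by rw [Set.union_comm Q P]; exact hnot) (by rw [Set.union_comm Q P]; exact h)
    exact ⟨i, h0, hik, q1, q2, hsee, Or.inr ⟨h, q3, q4, q5⟩⟩

end Pool.Agent.H1.ER2
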