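import Pool.Agent.H56.ER2.Targets

/-!
# MP_816b90_co: first leap case
-/

set_option autoImplicit false

namespace Pool.Agent.H1.ER2

open Pool.Agent.H48.ER Pool.Agent.H52.ER2 Pool.Agent.H66.ER2 Pool.Agent.H56.ER2

theorem pf_IA3 (hIA1 : T_IA1) (hIA2 : T_IA2) : T_IA3 := by
  intro V G v n z p q y x i j k hS hF h hu
  obtain ⟨hp, hi⟩ := hIA1 V G v n z p q y x i j k hS hF h hu
  subst hp
  subst hi
  have h2 := hIA2 V G v n z q y x j k hS hF h hu
  have hjk := h.jk
  have hkq := h.kq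
  have hj1 := h.j1
  have hq : q = j + 1 := by omega
  have hx1 : G.Adj (z 1) (x 1) := (hu (x 1) (Or.inr ⟨1, le_rfl, hj1, rfl⟩)).2.2 rfl
  have hno : ∀ l, 1 < l → l ≤ q → ¬ G.Adj (z 1) (x l) := by
    intro l h3 h4 h5
    rcases Nat.lt_or_ge l (j + 1) with h6 | h6
    · have h7 := (hu (x l) (Or.inr ⟨l, by omega, by omega, rfl⟩)).2.1 h5
      have := h.px.inj l 1 h4 (by omega) h7
      omega
    · have e : l = q := by omega
      rw [e, h.xy] at h5
      exact h.b.2.2 1 (by omega) (by have := hF.four; omega) h5.symm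
  exact absurd (h.ex 1 le_rfl (by omega) hx1 hno) (by decide)

end Pool.Agent.H1.ER2
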