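import Pool.Agent.H56.ER2.Targets
import Pool.Agent.H48.ER.Lib

/-!
# MP_816b90_co: shortest connection in a connected set
-/

set_option autoImplicit false

namespace Pool.Agent.H1.ER2

open Pool.Agent.H48.ER Pool.Agent.H52.ER2 Pool.Agent.H66.ER2 Pool.Agent.H56.ER2

theorem pf_PPC (hCON : T_CON) : T_PPC := by
  classical
  intro V G v D Z hD h1 h2
  obtain ⟨d0, hd0, hvd0⟩ := h1
  obtain ⟨y0, hy0, hy0Z⟩ := h2
  obtain ⟨k0, T0, hT0, hT0D⟩ := hCON V G D d0 y0 hD hd0 hy0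
  have hex : ∃ k, ∃ (d y : V) (T : Set V), IP G k d y T ∧ T ⊆ D ∧ G.Adj v d ∧ y ∈ Z :=
    ⟨k0, d0, y0, T0, hT0, hT0D, hvd0, hy0Z⟩
  obtain ⟨k, hk, hmin⟩ : ∃ k, (∃ (d y : V) (T : Set V), IP G k d y T ∧ T ⊆ D ∧ G.Adj v d ∧ y ∈ Z) ∧
      ∀ m, m < k → ¬ ∃ (d y : V) (T : Set V), IP G m d y T ∧ T ⊆ D ∧ G.Adj v d ∧ y ∈ Z :=
    ⟨Nat.find hex, Nat.find_spec hex, fun m hm => Nat.find_min hex hm⟩
  obtain ⟨d, y, T, hT, hTD, hvd, hyZ⟩ := hk
  refine ⟨k, d, y, T, hT, hTD, ?_, ?_⟩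
  · intro w hw
    constructor
    · intro hvw
      by_contra hne
      obtain ⟨i, j, R1, R2, r1, r2, hij, hun, _, _⟩ := hT.split hw
      have hi : i ≠ 0 := by
        rintro rfl
        exact hne r1.eq_of_zero.1.symm
      refine hmin j (by omega) ⟨w, y, R2, r2, ?_, hvw, hyZ⟩
      exact (Set.subset_union_right.trans hun.subset).trans hTD
    · rintro rfl
      exact hvd
  · intro w hw
    constructor
    · intro hwZ
      by_contra hne
      obtain ⟨i, j, R1, R2, r1, r2, hij, hun, _, _⟩ := hT.split hw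
      have hj : j ≠ 0 := by
        rintro rfl
        exact hne r2.eq_of_zero.1
      refine hmin i (by omega) ⟨d, w, R1, r1, ?_, hvd, hwZ⟩
      exact (Set.subset_union_left.trans hun.subset).trans hTD
    · rintro rfl
      exact hyZ

end Pool.Agent.H1.ER2
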